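import Pool.Agent.K1H38.GE.Loc
import Pool.Agent.K1H79.RF.SepB
import Pool.Agent.K1H79.QR.Ev

/-! # The counting inequality for `L(√-3)`, primes which are inert in `L/F` -/

set_option autoImplicit false
set_option linter.unusedSectionVars false
set_option linter.style.haveILetI false

namespace Pool.Agent.K1H38.GE

open NumberField Pool.Agent.K1H38.RT Pool.Agent.K1H79.GE
open scoped Classical nonZeroDivisors

variable {F L K : Type} [Field F] [NumberField F] [Field L] [NumberField L] [Field K] [NumberField K]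
  [Algebra F L] [Algebra L K]

/-- the map on the ideals -/
noncomputable def mm (I : Ideal (𝓞 F)) (L K : Type) [Field L] [NumberField L] [Field K] [NumberField K]
    [Algebra F L] [Algebra L K] : Ideal (𝓞 K) :=
  Ideal.map (algebraMap (𝓞 L) (𝓞 K)) (Ideal.map (algebraMap (𝓞 F) (𝓞 L)) I)

theorem mm_mul (I J : Ideal (𝓞 F)) : mm (I * J) L K = mm I L K * mm J L K := by
  unfold mm
  rw [Ideal.map_mul, Ideal.map_mul]

theorem mm_pow (I : Ideal (𝓞 F)) (k : ℕ) : mm (I ^ k) L K = mm I L K ^ k := by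
  unfold mm
  rw [Ideal.map_pow, Ideal.map_pow]

theorem mm_span (x : 𝓞 F) : mm (Ideal.span {x}) L K =
    Ideal.span {algebraMap (𝓞 L) (𝓞 K) (algebraMap (𝓞 F) (𝓞 L) x)} := by
  unfold mm
  rw [Ideal.map_span, Set.image_singleton, Ideal.map_span, Set.image_singleton]

theorem mm_inj {I J : Ideal (𝓞 F)} (h : mm I L K = mm J L K) : I = J :=
  map_inj' (F := F) (L := L) (map_inj' (F := L) (L := K) h)

theorem w_le_of_mul {x y d : 𝓞 K} {m : ℕ} (hx : x ≠ 0) (hd : y * ((m : ℕ) : 𝓞 K) ^ 3 = x * d)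
    {B X : ℝ} (hB : 0 ≤ B) (hm : (m : ℝ) ≤ X) (w : InfinitePlace K) (hw : w (y : K) ≤ B * w (x : K)) :
    w (d : K) ≤ B * X ^ 3 := by
  have hxK : (x : K) ≠ 0 := by exact_mod_cast hx
  have hwx : 0 < w (x : K) := InfinitePlace.pos_iff.2 hxK
  have hdK : (y : K) * ((m : ℕ) : K) ^ 3 = (x : K) * (d : K) := by
    have h7 := congrArg (algebraMap (𝓞 K) K) hd
    simp only [map_mul, map_pow, map_natCast] at h7
    exact h7
  have h1 := congrArg w hdK
  rw [map_mul, map_mul, map_pow, show w ((m : ℕ) : K) = (m : ℝ) from by simp] at h1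
  have h2 : w (x : K) * w (d : K) ≤ w (x : K) * (B * X ^ 3) := by
    rw [← h1]
    calc w (y : K) * (m : ℝ) ^ 3 ≤ (B * w (x : K)) * X ^ 3 := by
          apply mul_le_mul hw _ (by positivity) (by positivity)
          exact pow_le_pow_left₀ (Nat.cast_nonneg m) hm 3
      _ = _ := by ring
  exact le_of_mul_le_mul_left h2 hwx

/-- an integer of `K` fixed by `τ` and of small house is an integer of `F` -/
theorem down {H : ℝ} (hS : Small F L H) {τ : K ≃ₐ[L] K}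
    (hfix : ∀ x, τ x = x → ∃ z : L, algebraMap L K z = x) {e : 𝓞 K} (he : τ (e : K) = e)
    (hw : ∀ w : InfinitePlace K, w (e : K) ≤ H) :
    ∃ T : 𝓞 F, algebraMap (𝓞 L) (𝓞 K) (algebraMap (𝓞 F) (𝓞 L) T) = e := by
  obtain ⟨z, hz⟩ := hfix _ he
  have hzI : IsIntegral ℤ z := by
    refine (isIntegral_algebraMap_iff (algebraMap L K).injective).1 ?_
    rw [hz]
    exact RingOfIntegers.isIntegral_coe _
  obtain ⟨t, ht⟩ := hS z hzI (by
    intro v
    obtain ⟨w, hw'⟩ := InfinitePlace.comap_surjective (K := K) v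
    have hw2 : w.comap (algebraMap L K) = v := hw'
    have := hw w
    rw [← hz, ← InfinitePlace.comap_apply, hw2] at this
    exact this)
  have htI : IsIntegral ℤ t := by
    refine (isIntegral_algebraMap_iff (algebraMap F L).injective).1 ?_
    rw [ht]
    exact hzI
  refine ⟨⟨t, htI⟩, ?_⟩
  refine RingOfIntegers.ext ?_
  change algebraMap L K (algebraMap F L t) = _
  rw [ht, hz]

/-- the relation between the ideals of `F` -/
theorem rel {n : ℕ} (hn0 : 0 < n) (hm : Module.finrank ℚ K = 2 * n) {ω : K} (hω : ω ^ 2 + ω + 1 = 0)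
    (τ : K ≃ₐ[L] K) (hτω : τ ω = -1 - ω) (hττ : ∀ x, τ (τ x) = x)
    (hfix : ∀ x, τ x = x → ∃ z : L, algebraMap L K z = x)
    {X : ℝ} (hX : 1 ≤ X) {C : ℝ} (hC : 4 * 150 ^ 3 ≤ C) (hS : Small F L (C * X ^ C))
    {A A' : Ideal (𝓞 K)} {b b' : Ideal (𝓞 F)} {m m' : ℕ} (hm0 : m ≠ 0) (hm0' : m' ≠ 0)
    (hmX : (m : ℝ) ≤ X) (hmX' : (m' : ℝ) ≤ X)
    (hA : A * Ideal.map (TO τ) A = mm b L K) (hA' : A' * Ideal.map (TO τ) A' = mm b' L K)
    (hAm : ((m : ℕ) : 𝓞 K) ∈ A) (hAm' : ((m' : ℕ) : 𝓞 K) ∈ A')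
    {x y : 𝓞 K} (hx : x ≠ 0) (hy : y ≠ 0)
    (h : Ideal.span {x} * A ^ 3 = Ideal.span {y} * A' ^ 3)
    (hw : ∀ w : InfinitePlace K, w (y : K) ≤ (150 : ℝ) ^ 3 *
        (((Ideal.absNorm A : ℝ) / Ideal.absNorm A') ^ (((3 : ℕ) : ℝ) / ((2 * n : ℕ) : ℝ))) * w (x : K)) :
    ∃ b₁ c₁ : 𝓞 F, b₁ ^ 2 - b₁ * c₁ + c₁ ^ 2 ≠ 0 ∧
      Ideal.span {(36 * ((m' : ℕ) : 𝓞 F) ^ 6)} * b ^ 3 =
        Ideal.span {b₁ ^ 2 - b₁ * c₁ + c₁ ^ 2} * b' ^ 3 := by
  obtain ⟨o, hoω, ho⟩ := Pool.Agent.K1H79.RF.exists_x hω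
  have hTo := Pool.Agent.K1H79.RF.TO_x τ hτω hoω
  obtain ⟨d, hd⟩ : ∃ d : 𝓞 K, y * ((m' : ℕ) : 𝓞 K) ^ 3 = x * d := Pool.Agent.K1H79.RF.int_div hAm' h
  have hmK0 : ((m' : ℕ) : 𝓞 K) ≠ 0 := by exact_mod_cast hm0'
  have hd0 : d ≠ 0 := by
    rintro rfl
    rw [mul_zero] at hd
    exact mul_ne_zero hy (pow_ne_zero 3 hmK0) hd
  -- the norms of the ideals
  have hN1 : (Ideal.absNorm A : ℝ) ≤ X ^ (2 * n) := by
    have h1 : Ideal.absNorm A ∣ m ^ (2 * n) := by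
      rw [← hm, ← absNorm_p K m]
      exact map_dvd Ideal.absNorm (Ideal.dvd_span_singleton.2 hAm)
    have h2 : Ideal.absNorm A ≤ m ^ (2 * n) := Nat.le_of_dvd (pow_pos (Nat.pos_of_ne_zero hm0) _) h1
    calc (Ideal.absNorm A : ℝ) ≤ ((m ^ (2 * n) : ℕ) : ℝ) := by exact_mod_cast h2
      _ = (m : ℝ) ^ (2 * n) := by push_cast; rfl
      _ ≤ X ^ (2 * n) := pow_le_pow_left₀ (Nat.cast_nonneg m) hmX _
  have hN2 : (1 : ℝ) ≤ (Ideal.absNorm A' : ℝ) := by
    have h1 : Ideal.absNorm A' ≠ 0 := by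
      rw [Ne, Ideal.absNorm_eq_zero_iff]
      rintro rfl
      rw [Ideal.mem_bot] at hAm'
      exact hmK0 hAm'
    exact_mod_cast Nat.one_le_iff_ne_zero.2 h1
  have hratio : ((Ideal.absNorm A : ℝ) / Ideal.absNorm A') ^ (((3 : ℕ) : ℝ) / ((2 * n : ℕ) : ℝ)) ≤ X ^ 3 := by
    have hn0' : (0 : ℝ) < ((2 * n : ℕ) : ℝ) := by exact_mod_cast (by omega : 0 < 2 * n)
    calc ((Ideal.absNorm A : ℝ) / Ideal.absNorm A') ^ (((3 : ℕ) : ℝ) / ((2 * n : ℕ) : ℝ)) ≤
        (X ^ (2 * n)) ^ (((3 : ℕ) : ℝ) / ((2 * n : ℕ) : ℝ)) := by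
          apply Real.rpow_le_rpow (by positivity) _ (by positivity)
          exact (div_le_self (Nat.cast_nonneg _) hN2).trans hN1
      _ = X ^ 3 := by
          rw [← Real.rpow_natCast X (2 * n), ← Real.rpow_mul (by linarith), mul_div_cancel₀ _ hn0'.ne',
            Real.rpow_natCast]
  have hwd : ∀ w : InfinitePlace K, w (d : K) ≤ 150 ^ 3 * X ^ 6 := by
    intro w
    have h1 := w_le_of_mul (m := m') hx hd (B := 150 ^ 3 * X ^ 3) (X := X) (by positivity) hmX' w (by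
      refine (hw w).trans ?_
      apply mul_le_mul_of_nonneg_right _ (apply_nonneg _ _)
      exact mul_le_mul_of_nonneg_left hratio (by positivity))
    refine h1.trans (le_of_eq ?_)
    ring
  have hwτ : ∀ w : InfinitePlace K, w ((TO τ d : 𝓞 K) : K) ≤ 150 ^ 3 * X ^ 6 := by
    intro w
    exact hwd (w.comap (τ : K →+* K))
  have hH : 4 * 150 ^ 3 * X ^ 6 ≤ C * X ^ C := by
    have h1 : X ^ 6 ≤ X ^ C := by
      rw [← Real.rpow_natCast X 6]
      apply Real.rpow_le_rpow_of_exponent_le hX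
      push_cast
      linarith
    exact mul_le_mul hC h1 (by positivity) (by linarith)
  have hX6 : 0 ≤ 150 ^ 3 * X ^ 6 := by positivity
  obtain ⟨T, hT⟩ := down hS hfix (e := d + TO τ d) (by
    rw [RingOfIntegers.coe_eq_algebraMap, map_add, ← RingOfIntegers.coe_eq_algebraMap,
      ← RingOfIntegers.coe_eq_algebraMap, TO_coe, map_add, hττ, add_comm]) (by
    intro w
    rw [RingOfIntegers.coe_eq_algebraMap, map_add, ← RingOfIntegers.coe_eq_algebraMap,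
      ← RingOfIntegers.coe_eq_algebraMap]
    refine (w.1.add_le _ _).trans ?_
    have h1 := hwd w
    have h2 := hwτ w
    change w (d : K) + w ((TO τ d : 𝓞 K) : K) ≤ _
    linarith)
  have hw3 : ∀ w : InfinitePlace K, w ((2 * o + 1 : 𝓞 K) : K) ≤ 2 := by
    intro w
    have h1 : ((2 * o + 1 : 𝓞 K) : K) ^ 2 = -3 := by
      have h2 : (2 * o + 1) ^ 2 = (-3 : 𝓞 K) := by linear_combination 4 * ho
      have h3 := congrArg (algebraMap (𝓞 K) K) h2
      rw [map_pow, map_neg, map_ofNat] at h3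
      exact h3
    have h4 := congrArg w h1
    rw [map_pow] at h4
    have h5 : w (-3 : K) = 3 := by
      have h6' : ∀ k : ℕ, w ((k : ℕ) : K) = (k : ℝ) := fun k => by simp
      have h6 := h6' 3
      have h7 : w (-3 : K) = w ((3 : ℕ) : K) := by
        rw [show (-3 : K) = -((3 : ℕ) : K) by push_cast; rfl]
        exact w.1.map_neg _
      rw [h7, h6]
      norm_num
    rw [h5] at h4
    nlinarith [apply_nonneg w ((2 * o + 1 : 𝓞 K) : K)]
  obtain ⟨U, hU⟩ := down hS hfix (e := (d - TO τ d) * (2 * o + 1)) (by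
    have e1 : ∀ e : 𝓞 K, τ (e : K) = ((TO τ e : 𝓞 K) : K) := fun e => rfl
    rw [e1]
    congr 1
    rw [map_mul, map_sub, TO_TO τ hττ, map_add, map_mul, map_one, map_ofNat, hTo]
    ring) (by
    intro w
    rw [RingOfIntegers.coe_eq_algebraMap, map_mul, map_mul, map_sub, ← RingOfIntegers.coe_eq_algebraMap,
      ← RingOfIntegers.coe_eq_algebraMap, ← RingOfIntegers.coe_eq_algebraMap]
    have h1 := hwd w
    have h2 := hwτ w
    have h3 := hw3 w
    have h4 : w ((d : K) - ((TO τ d : 𝓞 K) : K)) ≤ 2 * (150 ^ 3 * X ^ 6) := by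
      rw [sub_eq_add_neg]
      refine (w.1.add_le _ _).trans ?_
      rw [w.1.map_neg]
      change w (d : K) + w ((TO τ d : 𝓞 K) : K) ≤ _
      linarith
    calc _ ≤ (2 * (150 ^ 3 * X ^ 6)) * 2 := mul_le_mul h4 h3 (apply_nonneg _ _) (by positivity)
      _ ≤ _ := by linarith)
  -- the norm of `d`
  have hJ : algebraMap (𝓞 L) (𝓞 K) (algebraMap (𝓞 F) (𝓞 L)
      ((3 * T - U) ^ 2 - (3 * T - U) * (-(2 * U)) + (-(2 * U)) ^ 2)) = 36 * (d * TO τ d) := by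
    simp only [map_add, map_sub, map_mul, map_pow, map_neg, map_ofNat, hT, hU]
    linear_combination 12 * (d - TO τ d) ^ 2 * ho
  refine ⟨3 * T - U, -(2 * U), ?_, ?_⟩
  · intro h0
    rw [h0, map_zero, map_zero] at hJ
    have h1 : (TO τ d : 𝓞 K) ≠ 0 := by
      rw [Ne, map_eq_zero_iff _ (TO τ).injective]
      exact hd0
    exact mul_ne_zero (by norm_num) (mul_ne_zero hd0 h1) hJ.symm
  · apply mm_inj (L := L) (K := K)
    rw [mm_mul, mm_mul, mm_pow, mm_pow, mm_span, mm_span, hJ, ← hA, ← hA']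
    have hE1 : Ideal.span {((m' : ℕ) : 𝓞 K) ^ 3} * A ^ 3 = Ideal.span {d} * A' ^ 3 := by
      apply mul_left_cancel₀ (span_ne hx)
      calc Ideal.span {x} * (Ideal.span {((m' : ℕ) : 𝓞 K) ^ 3} * A ^ 3) =
          Ideal.span {((m' : ℕ) : 𝓞 K) ^ 3} * (Ideal.span {x} * A ^ 3) := by ring
        _ = (Ideal.span {y} * Ideal.span {((m' : ℕ) : 𝓞 K) ^ 3}) * A' ^ 3 := by rw [h]; ring
        _ = Ideal.span {x} * (Ideal.span {d} * A' ^ 3) := by
            rw [Ideal.span_singleton_mul_span_singleton, hd, ← Ideal.span_singleton_mul_span_singleton]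
            ring
    have hE2 := map_eq τ (x := ((m' : ℕ) : 𝓞 K) ^ 3) (y := d) hE1
    rw [map_pow, map_natCast] at hE2
    have e1 : algebraMap (𝓞 L) (𝓞 K) (algebraMap (𝓞 F) (𝓞 L) (36 * ((m' : ℕ) : 𝓞 F) ^ 6)) =
        36 * (((m' : ℕ) : 𝓞 K) ^ 3 * ((m' : ℕ) : 𝓞 K) ^ 3) := by
      simp only [map_mul, map_pow, map_ofNat, map_natCast]
      ring
    rw [e1, ← Ideal.span_singleton_mul_span_singleton, ← Ideal.span_singleton_mul_span_singleton,
      ← Ideal.span_singleton_mul_span_singleton, ← Ideal.span_singleton_mul_span_singleton]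
    calc Ideal.span {36} * (Ideal.span {((m' : ℕ) : 𝓞 K) ^ 3} * Ideal.span {((m' : ℕ) : 𝓞 K) ^ 3}) *
        (A * Ideal.map (TO τ) A) ^ 3 = Ideal.span {36} * ((Ideal.span {((m' : ℕ) : 𝓞 K) ^ 3} * A ^ 3) *
          (Ideal.span {((m' : ℕ) : 𝓞 K) ^ 3} * (Ideal.map (TO τ) A) ^ 3)) := by ring
      _ = Ideal.span {36} * ((Ideal.span {d} * A' ^ 3) *
          (Ideal.span {TO τ d} * (Ideal.map (TO τ) A') ^ 3)) := by rw [hE1, hE2]
      _ = _ := by ring

section fin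

variable (Pf : ℕ → Ideal (𝓞 F)) (Wf : ℕ → Ideal (𝓞 K))

/-- products over the prime factors -/
theorem prod_TO (τ : K ≃ₐ[L] K) (s : Finset ℕ)
    (H : ∀ p ∈ s, Wf p * Ideal.map (TO τ) (Wf p) = mm (Pf p) L K) :
    (∏ p ∈ s, Wf p) * Ideal.map (TO τ) (∏ p ∈ s, Wf p) = mm (∏ p ∈ s, Pf p) L K := by
  induction s using Finset.induction_on with
  | empty =>
    rw [Finset.prod_empty, Finset.prod_empty, one_mul, Ideal.one_eq_top, Ideal.map_top, Ideal.one_eq_top]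
    unfold mm
    rw [Ideal.map_top, Ideal.map_top]
  | insert a s ha ih =>
    rw [Finset.prod_insert ha, Finset.prod_insert ha, mm_mul, Ideal.map_mul,
      ← H a (Finset.mem_insert_self a s), ← ih (fun p hp => H p (Finset.mem_insert_of_mem hp))]
    ring

theorem mem_prod_W {m : ℕ} (hm : Squarefree m) (H : ∀ p ∈ m.primeFactors, ((p : ℕ) : 𝓞 K) ∈ Wf p) :
    ((m : ℕ) : 𝓞 K) ∈ ∏ p ∈ m.primeFactors, Wf p := by
  have h1 : ((m : ℕ) : 𝓞 K) = ∏ p ∈ m.primeFactors, ((p : ℕ) : 𝓞 K) := by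
    conv_lhs => rw [← Nat.prod_primeFactors_of_squarefree hm]
    push_cast
    rfl
  rw [h1]
  exact Ideal.prod_mem_prod H

theorem vv_prod {p₀ : ℕ} (hP0 : (Pf p₀).IsPrime) (hb : Pf p₀ ≠ ⊥) (hp₀ : p₀.Prime)
    (hm0 : ((p₀ : ℕ) : 𝓞 F) ∈ Pf p₀) (s : Finset ℕ)
    (H : ∀ p ∈ s, p.Prime ∧ ((p : ℕ) : 𝓞 F) ∈ Pf p ∧ Pf p ≠ ⊥) :
    vv (Pf p₀) (∏ p ∈ s, Pf p) = if p₀ ∈ s then 1 else 0 := by
  induction s using Finset.induction_on with
  | empty =>
    rw [Finset.prod_empty]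
    simp only [Finset.notMem_empty, if_false]
    unfold vv
    rw [UniqueFactorizationMonoid.normalizedFactors_one]
    simp
  | insert a s ha ih =>
    rw [Finset.prod_insert ha, vv_mul _ (H a (Finset.mem_insert_self a s)).2.2 (by
      rw [Finset.prod_ne_zero_iff]
      exact fun p hp => (H p (Finset.mem_insert_of_mem hp)).2.2),
      ih (fun p hp => H p (Finset.mem_insert_of_mem hp))]
    by_cases h : a = p₀
    · subst h
      rw [vv_self hP0 hb]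
      simp [ha]
    · have h1 : vv (Pf p₀) (Pf a) = 0 := by
        apply vv_of_not
        intro hle
        obtain ⟨hap, haP, -⟩ := H a (Finset.mem_insert_self a s)
        have h2 : ((a : ℕ) : 𝓞 F) ∈ Pf p₀ := hle haP
        obtain ⟨u, v, huv⟩ := Nat.isCoprime_iff_coprime.2 ((Nat.coprime_primes hap hp₀).2 h)
        have h3 : ((u : ℤ) : 𝓞 F) * ((a : ℕ) : 𝓞 F) + ((v : ℤ) : 𝓞 F) * ((p₀ : ℕ) : 𝓞 F) = 1 := by
          exact_mod_cast congrArg (fun t : ℤ => (t : 𝓞 F)) huv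
        apply hP0.ne_top
        rw [Ideal.eq_top_iff_one, ← h3]
        exact Ideal.add_mem _ (Ideal.mul_mem_left _ _ h2) (Ideal.mul_mem_left _ _ hm0)
      rw [h1, zero_add]
      have h' : p₀ ≠ a := fun e => h e.symm
      simp [Finset.mem_insert, h']

end fin

/-- **W9** -/
theorem t_CI : S_CI := by
  intro n hn
  refine ⟨4 * 150 ^ 3, by positivity, ?_⟩
  intro F L K _ _ _ _ _ _ _ _ hnL he h2 ω hω hL X hX hS M hM N hN
  have hm : Module.finrank ℚ K = 2 * n := by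
    rw [← Module.finrank_mul_finrank ℚ L K, h2, mul_comm, hnL]
  obtain ⟨τ, hτω, hττ, hfix⟩ := Pool.Agent.K1H38.RT.exists_tau h2 hω hL
  obtain ⟨o, hoω, ho⟩ := Pool.Agent.K1H79.RF.exists_x hω
  have hTo := Pool.Agent.K1H79.RF.TO_x τ hτω hoω
  have hex : ∀ p : ℕ, ∃ (P : Ideal (𝓞 F)) (W : Ideal (𝓞 K)), SpI F L p →
      P.IsPrime ∧ ((p : ℕ) : 𝓞 F) ∈ P ∧ Ideal.absNorm P % 3 = 2 ∧
      ((p : ℕ) : 𝓞 K) ∈ W ∧ W * Ideal.map (TO τ) W = mm P L K := by
    intro p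
    by_cases hp : SpI F L p
    · obtain ⟨P, W, h⟩ := exists_W he τ ho hTo hp
      exact ⟨P, W, fun _ => h⟩
    · exact ⟨⊥, ⊥, fun h => absurd h hp⟩
  choose Pf Wf hPW using hex
  have hsp : ∀ m ∈ M, ∀ p ∈ m.primeFactors, SpI F L p := fun m hmM p hp =>
    (hM m hmM).2.2 p (Nat.prime_of_mem_primeFactors hp) (Nat.dvd_of_mem_primeFactors hp)
  have hm1 : ∀ m ∈ M, m ≠ 0 := fun m hmM => (hM m hmM).1.ne_zero
  have hmem : ∀ m ∈ M, ((m : ℕ) : 𝓞 K) ∈ ∏ p ∈ m.primeFactors, Wf p := fun m hmM =>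
    mem_prod_W Wf (hM m hmM).1 (fun p hp => (hPW p (hsp m hmM p hp)).2.2.2.1)
  have hprod : ∀ m ∈ M, (∏ p ∈ m.primeFactors, Wf p) * Ideal.map (TO τ) (∏ p ∈ m.primeFactors, Wf p) =
      mm (∏ p ∈ m.primeFactors, Pf p) L K := fun m hmM =>
    prod_TO Pf Wf τ _ (fun p hp => (hPW p (hsp m hmM p hp)).2.2.2.2)
  have hbot : ∀ p, SpI F L p → Pf p ≠ ⊥ := by
    intro p hp h
    have h1 := (hPW p hp).2.2.1
    rw [h, Ideal.absNorm_bot] at h1
    omega
  have hne : ∀ m : {m // m ∈ M}, (∏ p ∈ m.1.primeFactors, Wf p) ∈ (Ideal (𝓞 K))⁰ := by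
    intro m
    rw [mem_nonZeroDivisors_iff_ne_zero]
    intro h
    have h1 := hmem m.1 m.2
    rw [h, Ideal.zero_eq_bot, Ideal.mem_bot] at h1
    exact hm1 m.1 m.2 (by exact_mod_cast h1)
  have hbne : ∀ m ∈ M, (∏ p ∈ m.primeFactors, Pf p) ≠ 0 := by
    intro m hmM
    rw [Finset.prod_ne_zero_iff]
    exact fun p hp => hbot p (hsp m hmM p hp)
  have h1 := Pool.Agent.K1H79.QR.ev_g hm (l := 3) (by norm_num) N hN (ι := {m // m ∈ M})
    (fun m => ⟨∏ p ∈ m.1.primeFactors, Wf p, hne m⟩) (by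
    rintro ⟨m, hmM⟩ ⟨m', hmM'⟩ hmm x y hx hy hxy hw
    have hmm' : m ≠ m' := fun h => hmm (Subtype.ext h)
    obtain ⟨b₁, c₁, hJ0, hJ⟩ := rel (F := F) (L := L) (by omega : 0 < n) hm hω τ hτω hττ hfix hX le_rfl hS
      (hm1 m hmM) (hm1 m' hmM') (hM m hmM).2.1 (hM m' hmM').2.1 (hprod m hmM) (hprod m' hmM')
      (hmem m hmM) (hmem m' hmM') hx hy hxy hw
    -- a prime dividing exactly one of them
    have hpf : m.primeFactors ≠ m'.primeFactors := by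
      intro h
      apply hmm'
      rw [← Nat.prod_primeFactors_of_squarefree (hM m hmM).1, h,
        Nat.prod_primeFactors_of_squarefree (hM m' hmM').1]
    have hp₀ : ∃ p₀ : ℕ, SpI F L p₀ ∧ ((p₀ ∈ m.primeFactors ∧ p₀ ∉ m'.primeFactors) ∨
        (p₀ ∉ m.primeFactors ∧ p₀ ∈ m'.primeFactors)) := by
      by_contra hcon
      push Not at hcon
      apply hpf
      ext p
      constructor
      · intro hp
        by_contra h
        exact h ((hcon p (hsp m hmM p hp)).1 hp)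
      · intro hp
        by_contra h
        exact (hcon p (hsp m' hmM' p hp)).2 h hp
    obtain ⟨p₀, hs₀, hor⟩ := hp₀
    obtain ⟨hP0, hpP0, h30, -, -⟩ := hPW p₀ hs₀
    have hH : ∀ m ∈ M, ∀ p ∈ m.primeFactors, p.Prime ∧ ((p : ℕ) : 𝓞 F) ∈ Pf p ∧ Pf p ≠ ⊥ :=
      fun m hmM p hp => ⟨Nat.prime_of_mem_primeFactors hp, (hPW p (hsp m hmM p hp)).2.1,
        hbot p (hsp m hmM p hp)⟩
    have e1 := vv_prod Pf hP0 (hbot p₀ hs₀) hs₀.1 hpP0 m.primeFactors (hH m hmM)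
    have e2 := vv_prod Pf hP0 (hbot p₀ hs₀) hs₀.1 hpP0 m'.primeFactors (hH m' hmM')
    have e3 := congrArg (vv (Pf p₀)) hJ
    have h36 : (36 * ((m' : ℕ) : 𝓞 F) ^ 6) = (6 * ((m' : ℕ) : 𝓞 F) ^ 3) ^ 2 := by ring
    have hsq0 : (6 * ((m' : ℕ) : 𝓞 F) ^ 3) ≠ 0 := by
      have : ((m' : ℕ) : 𝓞 F) ≠ 0 := by exact_mod_cast hm1 m' hmM'
      exact mul_ne_zero (by norm_num) (pow_ne_zero 3 this)
    have hsp0 : ∀ {z : 𝓞 F}, z ≠ 0 → Ideal.span {z} ≠ 0 := by
      intro z hz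
      rw [Ne, Ideal.zero_eq_bot, Ideal.span_singleton_eq_bot]
      exact hz
    rw [h36, ← Ideal.span_singleton_pow, vv_mul _ (pow_ne_zero 2 (hsp0 hsq0)) (pow_ne_zero 3 (hbne m hmM)),
      vv_mul _ (hsp0 hJ0) (pow_ne_zero 3 (hbne m' hmM')), vv_pow, vv_pow, vv_pow, e1, e2] at e3
    obtain ⟨k, hk⟩ := even_vv hP0 h30 hJ0
    rw [hk] at e3
    rcases hor with ⟨ha, hb⟩ | ⟨ha, hb⟩
    · rw [if_pos ha, if_neg hb] at e3
      omega
    · rw [if_neg ha, if_pos hb] at e3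
      omega)
  rw [Fintype.card_coe] at h1
  exact h1

end Pool.Agent.K1H38.GE
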