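import Pool.Agent.K1H38.GE.Par
import Pool.Agent.K1H38.RT.Loc
import Pool.Agent.K1H79.GE.StmB

/-! # The ideals of `L(√-3)` above a prime of norm `2` modulo `3` of `F` inert in `L` -/

set_option autoImplicit false
set_option linter.unusedSectionVars false
set_option linter.style.haveILetI false

namespace Pool.Agent.K1H38.GE

open NumberField Pool.Agent.K1H38.RT Pool.Agent.K1H79.GE
open scoped Classical nonZeroDivisors

section ring

variable {R : Type} [CommRing R]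

theorem prod_eq' {a : Ideal R} {x z p u v : R} (hp : p ∈ a) (huv : u * p + v * 3 = 1)
    (hx : x ^ 2 + x + 1 = 0) (hz : z ^ 2 + z + 1 ∈ a) :
    (a ⊔ Ideal.span {x - z}) * (a ⊔ Ideal.span {-1 - x - z}) = a := by
  apply le_antisymm
  · rw [Ideal.mul_le]
    intro r hr s hs
    obtain ⟨α, hα, β, hβ, rfl⟩ := Submodule.mem_sup.1 hr
    obtain ⟨γ, hγ, δ, hδ, rfl⟩ := Submodule.mem_sup.1 hs
    obtain ⟨β', rfl⟩ := Ideal.mem_span_singleton'.1 hβ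
    obtain ⟨δ', rfl⟩ := Ideal.mem_span_singleton'.1 hδ
    have e : (α + β' * (x - z)) * (γ + δ' * (-1 - x - z)) =
        (γ + δ' * (-1 - x - z)) * α + (β' * (x - z)) * γ + (β' * δ') * (z ^ 2 + z + 1) := by
      linear_combination (-(β' * δ')) * hx
    rw [e]
    exact a.add_mem (a.add_mem (a.mul_mem_left _ hα) (a.mul_mem_left _ hγ)) (a.mul_mem_left _ hz)
  · intro α hα
    have h1 : α * p ∈ (a ⊔ Ideal.span {x - z}) * (a ⊔ Ideal.span {-1 - x - z}) :=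
      Ideal.mul_mem_mul (Ideal.mem_sup_left hα) (Ideal.mem_sup_left hp)
    have h2 : α * (-1 - x - z) ∈ (a ⊔ Ideal.span {x - z}) * (a ⊔ Ideal.span {-1 - x - z}) :=
      Ideal.mul_mem_mul (Ideal.mem_sup_left hα) (Ideal.mem_sup_right (Ideal.mem_span_singleton_self _))
    have h3 : (x - z) * α ∈ (a ⊔ Ideal.span {x - z}) * (a ⊔ Ideal.span {-1 - x - z}) :=
      Ideal.mul_mem_mul (Ideal.mem_sup_right (Ideal.mem_span_singleton_self _)) (Ideal.mem_sup_left hα)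
    have e : α = u * (α * p) + (v * (2 * x + 1)) * (α * (-1 - x - z)) +
        (-(v * (2 * x + 1))) * ((x - z) * α) := by
      linear_combination (-α) * huv + 4 * α * v * hx
    rw [e]
    exact Ideal.add_mem _ (Ideal.add_mem _ (Ideal.mul_mem_left _ _ h1) (Ideal.mul_mem_left _ _ h2))
      (Ideal.mul_mem_left _ _ h3)

end ring

/-- existence of a cube root of unity modulo a prime of norm `1` modulo `3` -/
theorem exists_z' {L : Type} [Field L] [NumberField L] {Q : Ideal (𝓞 L)} (hQ : Q.IsPrime)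
    (h3 : Ideal.absNorm Q % 3 = 1) (hQ1 : Ideal.absNorm Q ≠ 0) : ∃ z : 𝓞 L, z ^ 2 + z + 1 ∈ Q := by
  have hI0 : Q ≠ ⊥ := by
    rintro rfl
    exact hQ1 Ideal.absNorm_bot
  have hmax : Q.IsMaximal := hQ.isMaximal hI0
  have hcard : Nat.card (𝓞 L ⧸ Q) = Ideal.absNorm Q := rfl
  letI := Ideal.Quotient.field Q
  haveI : Finite (𝓞 L ⧸ Q) := Nat.finite_of_card_ne_zero (by rw [hcard]; exact hQ1)
  haveI : Fintype (𝓞 L ⧸ Q) := Fintype.ofFinite _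
  have hu : Fintype.card (𝓞 L ⧸ Q)ˣ = Ideal.absNorm Q - 1 := by
    rw [Fintype.card_units, ← Nat.card_eq_fintype_card, hcard]
  have hdvd : 3 ∣ Fintype.card (𝓞 L ⧸ Q)ˣ := by
    rw [hu]
    omega
  haveI : Fact (Nat.Prime 3) := ⟨Nat.prime_three⟩
  obtain ⟨g, hg⟩ := exists_prime_orderOf_dvd_card 3 hdvd
  have hg3 : g ^ 3 = 1 := by rw [← hg]; exact pow_orderOf_eq_one g
  have hg1 : g ≠ 1 := by
    rintro rfl
    rw [orderOf_one] at hg
    omega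
  have h6 : ((g : 𝓞 L ⧸ Q) - 1) * ((g : 𝓞 L ⧸ Q) ^ 2 + g + 1) = 0 := by
    have h7 : ((g ^ 3 : (𝓞 L ⧸ Q)ˣ) : 𝓞 L ⧸ Q) = 1 := by rw [hg3]; rfl
    rw [Units.val_pow_eq_pow_val] at h7
    linear_combination h7
  have h8 : (g : 𝓞 L ⧸ Q) ^ 2 + g + 1 = 0 := by
    rcases mul_eq_zero.1 h6 with h9 | h9
    · exfalso
      apply hg1
      apply Units.ext
      rw [Units.val_one]
      exact sub_eq_zero.1 h9
    · exact h9
  obtain ⟨z, hz⟩ := Ideal.Quotient.mk_surjective (g : 𝓞 L ⧸ Q)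
  refine ⟨z, ?_⟩
  rw [← Ideal.Quotient.eq_zero_iff_mem, map_add, map_add, map_pow, map_one, hz, h8]

variable {F L K : Type} [Field F] [NumberField F] [Field L] [NumberField L] [Field K] [NumberField K]
  [Algebra F L] [Algebra L K]

theorem fr_eq' : Module.finrank (𝓞 F) (𝓞 L) = Module.finrank F L :=
  (IsFractionRing.finrank_eq (𝓞 F) F (𝓞 L) L).symm

theorem absNorm_map' (P : Ideal (𝓞 F)) :
    Ideal.absNorm (Ideal.map (algebraMap (𝓞 F) (𝓞 L)) P) = Ideal.absNorm P ^ Module.finrank F L := by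
  rw [← Ideal.absNorm_relNorm (𝓞 F) (𝓞 L), Ideal.relNorm_algebraMap, fr_eq', map_pow]

theorem map_inj' : Function.Injective (Ideal.map (algebraMap (𝓞 F) (𝓞 L))) :=
  Ideal.map_injective_of_faithfullyFlat

theorem map_map_TO (τ : K ≃ₐ[L] K) (I : Ideal (𝓞 L)) :
    Ideal.map (TO τ) (Ideal.map (algebraMap (𝓞 L) (𝓞 K)) I) = Ideal.map (algebraMap (𝓞 L) (𝓞 K)) I := by
  have h : ((TO τ : 𝓞 K ≃+* 𝓞 K) : 𝓞 K →+* 𝓞 K).comp (algebraMap (𝓞 L) (𝓞 K)) = algebraMap (𝓞 L) (𝓞 K) := by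
    ext x
    exact congrArg _ (TO_alg τ x)
  calc Ideal.map (TO τ) (Ideal.map (algebraMap (𝓞 L) (𝓞 K)) I) =
      Ideal.map ((TO τ : 𝓞 K ≃+* 𝓞 K) : 𝓞 K →+* 𝓞 K) (Ideal.map (algebraMap (𝓞 L) (𝓞 K)) I) := rfl
    _ = _ := by rw [Ideal.map_map, h]

/-- the ideals above a prime as in `SpI` -/
theorem exists_W (he : Even (Module.finrank F L)) (τ : K ≃ₐ[L] K) {x : 𝓞 K} (hx : x ^ 2 + x + 1 = 0)
    (hτ : TO τ x = -1 - x) {p : ℕ} (hp : SpI F L p) :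
    ∃ (P : Ideal (𝓞 F)) (W : Ideal (𝓞 K)), P.IsPrime ∧ ((p : ℕ) : 𝓞 F) ∈ P ∧ Ideal.absNorm P % 3 = 2 ∧
      ((p : ℕ) : 𝓞 K) ∈ W ∧ W * Ideal.map (TO τ) W =
        Ideal.map (algebraMap (𝓞 L) (𝓞 K)) (Ideal.map (algebraMap (𝓞 F) (𝓞 L)) P) := by
  obtain ⟨hpp, P, hP, hpP, h3, hQ⟩ := hp
  have hp3 : p ≠ 3 := by
    rintro rfl
    exact three_not hP h3 (by exact_mod_cast hpP)
  obtain ⟨u, v, huv⟩ : IsCoprime (p : ℤ) (3 : ℤ) := by
    have := Nat.isCoprime_iff_coprime.2 ((Nat.coprime_primes hpp Nat.prime_three).2 hp3)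
    exact_mod_cast this
  have hne : Ideal.absNorm P ≠ 0 := by intro h; rw [h] at h3; omega
  obtain ⟨z, hz⟩ := exists_z' hQ (by
    rw [absNorm_map']
    obtain ⟨k, hk⟩ := he
    rw [hk, ← two_mul, pow_mul, Nat.pow_mod, Nat.pow_mod (Ideal.absNorm P) 2, h3]
    norm_num) (by rw [absNorm_map']; exact pow_ne_zero _ hne)
  obtain ⟨a, ha⟩ : ∃ a, a = Ideal.map (algebraMap (𝓞 L) (𝓞 K)) (Ideal.map (algebraMap (𝓞 F) (𝓞 L)) P) :=
    ⟨_, rfl⟩
  have hpa : ((p : ℕ) : 𝓞 K) ∈ a := by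
    have h1 := Ideal.mem_map_of_mem (algebraMap (𝓞 L) (𝓞 K)) (Ideal.mem_map_of_mem (algebraMap (𝓞 F) (𝓞 L)) hpP)
    rw [map_natCast, map_natCast, ← ha] at h1
    exact h1
  have hza : (algebraMap (𝓞 L) (𝓞 K) z) ^ 2 + algebraMap (𝓞 L) (𝓞 K) z + 1 ∈ a := by
    have h1 := Ideal.mem_map_of_mem (algebraMap (𝓞 L) (𝓞 K)) hz
    rw [map_add, map_add, map_pow, map_one, ← ha] at h1
    exact h1
  have huv' : ((u : ℤ) : 𝓞 K) * ((p : ℕ) : 𝓞 K) + ((v : ℤ) : 𝓞 K) * 3 = 1 := by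
    exact_mod_cast congrArg (fun t : ℤ => (t : 𝓞 K)) huv
  refine ⟨P, a ⊔ Ideal.span {x - algebraMap (𝓞 L) (𝓞 K) z}, hP, hpP, h3, Ideal.mem_sup_left hpa, ?_⟩
  have e : Ideal.map (TO τ) (a ⊔ Ideal.span {x - algebraMap (𝓞 L) (𝓞 K) z}) =
      a ⊔ Ideal.span {-1 - x - algebraMap (𝓞 L) (𝓞 K) z} := by
    rw [Ideal.map_sup, ha, map_map_TO, Ideal.map_span, Set.image_singleton, map_sub, hτ, TO_alg]
  rw [e, prod_eq' hpa huv' hx hza, ha]

end Pool.Agent.K1H38.GE
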