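import Mathlib

/-! # The form `b² - b c + c²` at a prime of norm `2` modulo `3` -/

set_option autoImplicit false
set_option linter.unusedSectionVars false
set_option linter.style.haveILetI false

namespace Pool.Agent.K1H38.GE

open NumberField UniqueFactorizationMonoid
open scoped Classical

variable {F : Type} [Field F] [NumberField F]

/-- the multiplicity of `P` in `I` -/
noncomputable def vv (P I : Ideal (𝓞 F)) : ℕ := (normalizedFactors I).count P

theorem vv_mul (P : Ideal (𝓞 F)) {I J : Ideal (𝓞 F)} (hI : I ≠ 0) (hJ : J ≠ 0) :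
    vv P (I * J) = vv P I + vv P J := by
  unfold vv
  rw [normalizedFactors_mul hI hJ, Multiset.count_add]

theorem vv_pow (P I : Ideal (𝓞 F)) (k : ℕ) : vv P (I ^ k) = k * vv P I := by
  unfold vv
  rw [normalizedFactors_pow, Multiset.count_nsmul]

theorem vv_self {P : Ideal (𝓞 F)} (hP : P.IsPrime) (h0 : P ≠ ⊥) : vv P P = 1 := by
  unfold vv
  have h := (Ideal.prime_of_isPrime h0 hP).irreducible
  rw [normalizedFactors_irreducible h, normalize_eq, Multiset.count_singleton_self]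

theorem vv_of_not {P I : Ideal (𝓞 F)} (h : ¬ I ≤ P) : vv P I = 0 := by
  unfold vv
  rw [Multiset.count_eq_zero]
  intro hm
  exact h (Ideal.dvd_iff_le.1 (dvd_of_mem_normalizedFactors hm))

theorem three_not {P : Ideal (𝓞 F)} (hP : P.IsPrime) (h3 : Ideal.absNorm P % 3 = 2) :
    (3 : 𝓞 F) ∉ P := by
  intro h
  have h1 : (3 : 𝓞 F ⧸ P) = 0 := by
    have := Ideal.Quotient.eq_zero_iff_mem.2 h
    rw [map_ofNat] at this
    exact this
  have hne : Ideal.absNorm P ≠ 0 := by intro h; rw [h] at h3; omega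
  have hcard : Nat.card (𝓞 F ⧸ P) = Ideal.absNorm P := rfl
  haveI : Finite (𝓞 F ⧸ P) := Nat.finite_of_card_ne_zero (by rw [hcard]; exact hne)
  haveI : Nontrivial (𝓞 F ⧸ P) := Ideal.Quotient.nontrivial_iff.2 hP.ne_top
  haveI : Fact (Nat.Prime 3) := ⟨Nat.prime_three⟩
  have h2 : addOrderOf (1 : 𝓞 F ⧸ P) = 3 := by
    apply addOrderOf_eq_prime
    · rw [nsmul_eq_mul, mul_one]; exact_mod_cast h1
    · exact one_ne_zero
  have h4 := addOrderOf_dvd_natCard (1 : 𝓞 F ⧸ P)
  rw [h2, hcard] at h4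
  omega

/-- the form is anisotropic modulo `P` -/
theorem aniso {P : Ideal (𝓞 F)} (hP : P.IsPrime) (h3 : Ideal.absNorm P % 3 = 2) {b c : 𝓞 F}
    (h : b ^ 2 - b * c + c ^ 2 ∈ P) : b ∈ P ∧ c ∈ P := by
  have hne : Ideal.absNorm P ≠ 0 := by intro h; rw [h] at h3; omega
  have hP0 : P ≠ ⊥ := by
    rintro rfl
    exact hne Ideal.absNorm_bot
  have hmax : P.IsMaximal := hP.isMaximal hP0
  have h3' := three_not hP h3
  have hcard : Nat.card (𝓞 F ⧸ P) = Ideal.absNorm P := rfl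
  letI := Ideal.Quotient.field P
  haveI : Finite (𝓞 F ⧸ P) := Nat.finite_of_card_ne_zero (by rw [hcard]; exact hne)
  haveI : Fintype (𝓞 F ⧸ P) := Fintype.ofFinite _
  by_cases hc : c ∈ P
  · refine ⟨?_, hc⟩
    have h1 : b ^ 2 ∈ P := by
      have e : b ^ 2 = (b ^ 2 - b * c + c ^ 2) + (b - c) * c := by ring
      rw [e]
      exact P.add_mem h (P.mul_mem_left _ hc)
    exact hP.mem_of_pow_mem 2 h1
  · exfalso
    have hc' : (Ideal.Quotient.mk P c) ≠ 0 := by
      rw [Ne, Ideal.Quotient.eq_zero_iff_mem]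
      exact hc
    have h1 : (Ideal.Quotient.mk P b) ^ 2 - Ideal.Quotient.mk P b * Ideal.Quotient.mk P c +
        (Ideal.Quotient.mk P c) ^ 2 = 0 := by
      have := Ideal.Quotient.eq_zero_iff_mem.2 h
      rw [map_add, map_sub, map_mul, map_pow, map_pow] at this
      exact this
    obtain ⟨r, hr⟩ : ∃ r : 𝓞 F ⧸ P, r = -(Ideal.Quotient.mk P b / Ideal.Quotient.mk P c) := ⟨_, rfl⟩
    have h2 : r ^ 2 + r + 1 = 0 := by
      rw [hr]
      field_simp
      linear_combination h1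
    have h4 : r ^ 3 = 1 := by linear_combination (r - 1) * h2
    have hr0 : r ≠ 0 := by
      rintro rfl
      norm_num at h2
    have h5 := FiniteField.pow_card_sub_one_eq_one r hr0
    rw [← Nat.card_eq_fintype_card, hcard] at h5
    obtain ⟨k, hk⟩ : ∃ k, Ideal.absNorm P - 1 = 3 * k + 1 := ⟨Ideal.absNorm P / 3, by omega⟩
    rw [hk, pow_add, pow_mul, h4, one_pow, one_mul, pow_one] at h5
    rw [h5] at h2
    apply h3'
    rw [← Ideal.Quotient.eq_zero_iff_mem, map_ofNat]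
    linear_combination h2

/-- the multiplicity of `P` in `b² - b c + c²` is even -/
theorem even_vv {P : Ideal (𝓞 F)} (hP : P.IsPrime) (h3 : Ideal.absNorm P % 3 = 2) {b c : 𝓞 F}
    (h0 : b ^ 2 - b * c + c ^ 2 ≠ 0) : Even (vv P (Ideal.span {b ^ 2 - b * c + c ^ 2})) := by
  have hne : Ideal.absNorm P ≠ 0 := by intro h; rw [h] at h3; omega
  have hP0 : P ≠ ⊥ := by
    rintro rfl
    exact hne Ideal.absNorm_bot
  have hPt : P ≠ ⊤ := hP.ne_top
  have hsp : ∀ {x : 𝓞 F}, x ≠ 0 → Ideal.span {x} ≠ 0 := by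
    intro x hx
    rw [Ne, Ideal.zero_eq_bot, Ideal.span_singleton_eq_bot]
    exact hx
  -- the exponent
  have hex : ∃ k : ℕ, ¬ (b ∈ P ^ (k + 1) ∧ c ∈ P ^ (k + 1)) := by
    by_contra hcon
    push Not at hcon
    have hz : ∀ x : 𝓞 F, (∀ k : ℕ, x ∈ P ^ (k + 1)) → x = 0 := by
      intro x hx
      have h1 : x ∈ ⨅ i : ℕ, P ^ i := by
        rw [Ideal.mem_iInf]
        intro i
        rcases i with - | i
        · simp
        · exact hx i
      rw [Ideal.iInf_pow_eq_bot_of_isDomain P hPt] at h1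
      exact h1
    have hb := hz b (fun k => (hcon k).1)
    have hc := hz c (fun k => (hcon k).2)
    apply h0
    rw [hb, hc]
    ring
  obtain ⟨k, hk, hmin⟩ : ∃ k : ℕ, ¬ (b ∈ P ^ (k + 1) ∧ c ∈ P ^ (k + 1)) ∧ (b ∈ P ^ k ∧ c ∈ P ^ k) := by
    refine ⟨Nat.find hex, Nat.find_spec hex, ?_⟩
    rcases hk : Nat.find hex with - | j
    · simp
    · have := Nat.find_min hex (m := j) (by omega)
      push Not at this
      exact this
  obtain ⟨g, hg, hg'⟩ := Ideal.exists_mem_pow_notMem_pow_succ P hP0 hPt k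
  have hg0 : g ≠ 0 := by
    rintro rfl
    exact hg' (Ideal.zero_mem _)
  obtain ⟨G, hG⟩ : P ^ k ∣ Ideal.span {g} := Ideal.dvd_span_singleton.2 hg
  have hGP : ¬ G ≤ P := by
    intro h
    apply hg'
    have h1 : Ideal.span {g} ≤ P ^ (k + 1) := by
      rw [hG, pow_succ]
      exact Ideal.mul_mono_right h
    exact h1 (Ideal.mem_span_singleton_self g)
  obtain ⟨s, hs, hsP⟩ := Set.not_subset.1 hGP
  have hs0 : s ≠ 0 := by
    rintro rfl
    exact hsP (Ideal.zero_mem _)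
  have hdiv : ∀ x ∈ P ^ k, ∃ y : 𝓞 F, s * x = g * y := by
    intro x hx
    have h1 : s * x ∈ Ideal.span {g} := by
      rw [hG, mul_comm]
      exact Ideal.mul_mem_mul hs hx
    obtain ⟨y, hy⟩ := Ideal.mem_span_singleton'.1 h1
    exact ⟨y, by rw [← hy, mul_comm]⟩
  obtain ⟨b', hb'⟩ := hdiv b hmin.1
  obtain ⟨c', hc'⟩ := hdiv c hmin.2
  have hn : b' ^ 2 - b' * c' + c' ^ 2 ∉ P := by
    intro h
    obtain ⟨h1, h2⟩ := aniso hP h3 h
    apply hk
    have key : ∀ x y : 𝓞 F, y ∈ P → s * x = g * y → x ∈ P ^ (k + 1) := by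
      intro x y hy hxy
      have h4 : s * x ∈ P ^ (k + 1) := by
        rw [hxy, pow_succ]
        exact Ideal.mul_mem_mul hg hy
      exact (Ideal.IsPrime.mul_mem_pow P h4).resolve_left hsP
    exact ⟨key b b' h1 hb', key c c' h2 hc'⟩
  have hn0 : b' ^ 2 - b' * c' + c' ^ 2 ≠ 0 := by
    intro h
    apply hn
    rw [h]
    exact Ideal.zero_mem _
  have e1 : s ^ 2 * (b ^ 2 - b * c + c ^ 2) = g ^ 2 * (b' ^ 2 - b' * c' + c' ^ 2) := by
    linear_combination (s * b + g * b' - s * c) * hb' + (s * c + g * c' - g * b') * hc'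
  have e2 : vv P (Ideal.span {s ^ 2 * (b ^ 2 - b * c + c ^ 2)}) =
      vv P (Ideal.span {g ^ 2 * (b' ^ 2 - b' * c' + c' ^ 2)}) := by rw [e1]
  rw [← Ideal.span_singleton_mul_span_singleton, ← Ideal.span_singleton_mul_span_singleton,
    vv_mul P (hsp (pow_ne_zero 2 hs0)) (hsp h0), vv_mul P (hsp (pow_ne_zero 2 hg0)) (hsp hn0),
    ← Ideal.span_singleton_pow, ← Ideal.span_singleton_pow, vv_pow, vv_pow] at e2
  have e3 : vv P (Ideal.span {s}) = 0 := vv_of_not (by
    rw [Ideal.span_singleton_le_iff_mem]; exact hsP)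
  have e4 : vv P (Ideal.span {b' ^ 2 - b' * c' + c' ^ 2}) = 0 := vv_of_not (by
    rw [Ideal.span_singleton_le_iff_mem]; exact hn)
  rw [e3, e4] at e2
  exact ⟨vv P (Ideal.span {g}), by omega⟩

end Pool.Agent.K1H38.GE
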